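import Pool.Agent.Q213.ChainPoset

/-!
# A partially ordered set without cofinal subsets whose maximal chains have regular size

Q1 asks whether there is, provably in ZFC, a partially ordered set `P` such that every cofinal
subset `Q` of `P` has a maximal chain of singular cardinality. The answer is yes.

Let `κ = ℵ_ω` and `W = κ⁺`. Let `e α : α → κ` be injective for `α < κ⁺`, and for `i < κ⁺` and `j < κ`
let `A i j` be the set of all `α > i` with `e α i = j`. Let `P i j` be the set of all bounded subsets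
of `κ⁺` without limit points in `A i j`, ordered by end-extension.

For every `i` there is `j` such that all chains of `P i j` have size at most `κ`: an unbounded chain
of `P i j` gives an unbounded subset of `κ⁺` without limit points in `A i j`, and if we had
one for every `j < κ` then there would be a common limit point `α > i`, but `α ∈ A i j` for
`j = e α i`. Hence for some `j` the set `I` of all `i` such that all chains of `P i j` have size at
most `κ` has more than `κ` elements. For this `j` the sets `A i j` are pairwise disjoint.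

Suppose that every `P i j`, `i ∈ I`, has a cofinal subset `Q i` all of whose maximal chains have
regular size. Let `n` be a natural number. Then for all but at most `ℵ_{n+1}` indices `i ∈ I`, there
is a chain of size `ℵ_n` in `Q i` above every given node of `P i j`, with an upper bound in `P i j`:
for `ℵ_{n+1}` indices `i` at once, we build chains in `Q i` recursively, where at each step we add
one and the same point `δ` to all the unions; the index `i` dies if `δ ∈ A i j`, which happens for at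
most one index at every step. So there is `i ∈ I` for which this is true for all `n`. Therefore,
`Q i` has a chain of size at least `ℵ_ω`, and a maximal chain of `Q i` which contains it has size
exactly `ℵ_ω`, a contradiction.
-/

set_option autoImplicit false

open Set Cardinal Pool.Agent.Q213.ChainPoset

namespace Pool.Agent.Results.MP_43ca77_lc.SingularMaximalChains

universe u

/-- `C` is a maximal chain of `Q`. -/
def IsMaxChainOf {P : Type u} [PartialOrder P] (Q C : Set P) : Prop :=
  C ⊆ Q ∧ IsChain (fun a b : P => a ≤ b) C ∧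
    ∀ D ⊆ Q, IsChain (fun a b : P => a ≤ b) D → C ⊆ D → C = D

/-- Every maximal chain of `Q` has regular cardinality, where finite cardinalities are counted as
regular. -/
def PropertyR {P : Type u} [PartialOrder P] (Q : Set P) : Prop :=
  ∀ C : Set P, IsMaxChainOf Q C → C.Finite ∨ (#C).IsRegular

/-- `ℵ_ω`. -/
noncomputable abbrev kap : Cardinal.{0} := Cardinal.aleph Ordinal.omega0

/-- The ordinals below `ℵ_{ω+1}`. -/
abbrev W : Type := (Order.succ kap).ord.ToType

/-- A set of size `ℵ_ω`. -/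
abbrev K : Type := kap.ord.ToType

theorem aleph0_le_kap : ℵ₀ ≤ kap := Cardinal.aleph0_le_aleph _

theorem mk_K : #K = kap := by rw [Cardinal.mk_toType, Cardinal.card_ord]

theorem mk_W : #W = Order.succ kap := by rw [Cardinal.mk_toType, Cardinal.card_ord]

theorem exists_bound {J : Type} (hJ : #J < Order.succ kap) (f : J → W) : ∃ b, ∀ j, f j < b := by
  by_contra hcon
  push Not at hcon
  have h1 : IsCofinal (range f) := by
    intro b
    obtain ⟨j, hj⟩ := hcon b
    exact ⟨f j, ⟨j, rfl⟩, hj⟩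
  have h2 := (Order.cof_le h1).trans Cardinal.mk_range_le
  rw [Ordinal.cof_toType, (Cardinal.isRegular_succ aleph0_le_kap).cof_ord] at h2
  exact absurd hJ (not_lt.2 h2)

instance : Nonempty W := by
  rw [← Cardinal.mk_ne_zero_iff, mk_W]
  exact (Order.succ_ne_bot _)

instance : Nonempty K := by
  rw [← Cardinal.mk_ne_zero_iff, mk_K]
  exact (Cardinal.aleph_pos _).ne'

theorem mk_Iio (α : W) : #(Iio α) ≤ kap := by
  have := Cardinal.mk_Iio_ord_toType α
  exact Order.lt_succ_iff.1 this

theorem exists_e : ∃ e : W → W → K, ∀ α, InjOn (e α) (Iio α) := by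
  classical
  have h : ∀ α : W, ∃ f : W → K, InjOn f (Iio α) := by
    intro α
    have h1 : #(Iio α) ≤ #K := by
      rw [mk_K]
      exact mk_Iio α
    obtain ⟨g⟩ := Cardinal.le_def _ _ |>.1 h1
    refine ⟨fun x => if h : x ∈ Iio α then g ⟨x, h⟩ else Classical.arbitrary K, ?_⟩
    intro x hx y hy hxy
    simp only [dif_pos hx, dif_pos hy] at hxy
    exact congrArg Subtype.val (g.injective hxy)
  choose e he using h
  exact ⟨e, he⟩

/-- The set `A i j`. -/
def AA (e : W → W → K) (j : K) (i : W) : Set W := {α | i < α ∧ e α i = j}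

theorem AA_disjoint {e : W → W → K} (he : ∀ α, InjOn (e α) (Iio α)) (j : K) (i i' : W)
    (h : i ≠ i') : Disjoint (AA e j i) (AA e j i') := by
  rw [Set.disjoint_left]
  rintro α ⟨h1, h2⟩ ⟨h3, h4⟩
  exact h (he α h1 h3 (h2.trans h4.symm))

/-- For every `i` there is `j` such that all chains of nodes have size at most `ℵ_ω`. -/
theorem exists_small (e : W → W → K) (i : W) : ∃ j, ∀ C : Set (Set W),
    (∀ c ∈ C, Node (AA e j i) c) → (∀ c ∈ C, ∀ d ∈ C, Ini c d ∨ Ini d c) → #C ≤ kap := by
  by_contra hcon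
  push Not at hcon
  choose C hN hC hbig using hcon
  -- the unions are unbounded
  have hunb : ∀ j b, ∃ x ∈ ⋃₀ (C j), b < x := by
    intro j b
    by_contra hno
    push Not at hno
    have h1 : #(⋃₀ (C j) : Set W) ≤ kap := by
      obtain ⟨b', hb'⟩ := exists_bound (J := Unit) (by
        rw [Cardinal.mk_unit]
        exact (Cardinal.one_lt_aleph0.trans_le aleph0_le_kap).trans_le (Order.le_succ _))
        (fun _ => b)
      refine (Cardinal.mk_le_mk_of_subset ?_).trans (mk_Iio b')
      intro x hx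
      exact (hno x hx).trans_lt (hb' ())
    have h2 := mk_chain_le (hC j)
    rw [Cardinal.mk_option] at h2
    have h3 : #(⋃₀ (C j) : Set W) + 1 ≤ kap :=
      Cardinal.add_le_of_le aleph0_le_kap h1 (Cardinal.one_le_aleph0.trans aleph0_le_kap)
    exact absurd (h2.trans h3) (not_le.2 (hbig j))
  choose g hg1 hg2 using hunb
  have hB : ∀ f : K → W, ∃ b, ∀ j, f j < b := fun f => exists_bound (by
    rw [mk_K]
    exact Order.lt_succ _) f
  choose B hB using hB
  let a : ℕ → W := fun n => Nat.rec i (fun _ b => B fun j => g j b) n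
  have ha : ∀ n j, g j (a n) < a (n + 1) := fun n j => hB (fun j => g j (a n)) j
  have hlt : ∀ n, a n < a (n + 1) := fun n =>
    (hg2 (Classical.arbitrary K) (a n)).trans (ha n _)
  have hne : {b : W | ∀ n, a n < b}.Nonempty := exists_bound (by
    rw [Cardinal.mk_nat]
    exact (aleph0_le_kap).trans_lt (Order.lt_succ _)) a
  let α := WellFounded.min (wellFounded_lt (α := W)) _ hne
  have hα : ∀ n, a n < α := WellFounded.min_mem (wellFounded_lt (α := W)) _ hne
  have hαmin : ∀ β < α, ∃ n, β ≤ a n := by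
    intro β hβ
    by_contra hno
    push Not at hno
    exact WellFounded.not_lt_min (wellFounded_lt (α := W)) {b : W | ∀ n, a n < b} hno hβ
  have hi : i < α := hα 0
  refine not_isLim_sUnion (hC (e α i)) (hN (e α i)) (fun b => ⟨_, hg1 _ b, hg2 _ b⟩) α
    ⟨hi, rfl⟩ ⟨⟨i, hi⟩, ?_⟩
  intro β hβ
  obtain ⟨n, hn⟩ := hαmin β hβ
  have h1 : a (n + 1) < α := hα (n + 1)
  exact ⟨g (e α i) (a n), hg1 _ _, hn.trans_lt (hg2 _ _), (ha n _).trans h1⟩

/-- There is a chain of size `ℵ_n` in `Q` above every node, with an upper bound. -/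
def Good (A : Set W) (Q : Set (Set W)) (n : ℕ) : Prop :=
  ∀ x, Node A x → ∃ C ⊆ Q, (∀ c ∈ C, Node A c ∧ Ini x c) ∧ (∀ c ∈ C, ∀ d ∈ C, Ini c d ∨ Ini d c) ∧
    Cardinal.aleph n ≤ #C ∧ ∃ y, Node A y ∧ Ini x y ∧ ∀ c ∈ C, Ini c y

theorem aleph_nat_lt_kap (n : ℕ) : Cardinal.aleph n < kap :=
  Cardinal.aleph_lt_aleph.2 (Ordinal.natCast_lt_omega0 n)

theorem mk_not_good {A : W → Set W} (hA : ∀ i i', i ≠ i' → Disjoint (A i) (A i'))
    (Q : W → Set (Set W)) (S : Set W)
    (hQ : ∀ i ∈ S, ∀ c, Node (A i) c → ∃ q ∈ Q i, Node (A i) q ∧ Ini c q) (n : ℕ) :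
    #{i ∈ S | ¬ Good (A i) (Q i) n} ≤ kap := by
  by_contra hbig
  push Not at hbig
  have h1 : Cardinal.aleph (n + 1 : ℕ) ≤ #{i ∈ S | ¬ Good (A i) (Q i) n} :=
    (aleph_nat_lt_kap (n + 1)).le.trans hbig.le
  obtain ⟨I, hIS, hI⟩ := Cardinal.le_mk_iff_exists_subset.1 h1
  have hbad : ∀ i : I, ∃ x, Node (A i) x ∧ ∀ C ⊆ Q i, (∀ c ∈ C, Node (A i) c ∧ Ini x c) →
      (∀ c ∈ C, ∀ d ∈ C, Ini c d ∨ Ini d c) → Cardinal.aleph n ≤ #C →
      ∀ y, Node (A i) y → Ini x y → ∃ c ∈ C, ¬ Ini c y := by
    intro i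
    have h2 := (hIS i.2).2
    unfold Good at h2
    push Not at h2
    exact h2
  choose x hx hbad using hbad
  let Ξ : Type := WithTop (Cardinal.aleph n : Cardinal.{0}).ord.ToType
  have hΞ : #Ξ = Cardinal.aleph n := by
    show #(Option (Cardinal.aleph n : Cardinal.{0}).ord.ToType) = _
    rw [Cardinal.mk_option, Cardinal.mk_toType, Cardinal.card_ord]
    exact Cardinal.add_one_eq (Cardinal.aleph0_le_aleph _)
  have hlt : Cardinal.aleph n < Cardinal.aleph (n + 1 : ℕ) := by
    rw [Cardinal.aleph_lt_aleph]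
    exact_mod_cast Nat.lt_succ_self n
  obtain ⟨i, q, hq, hq'⟩ := exists_long_chain (I := I) (Ξ := Ξ) (fun i => A i)
    (fun i i' h => hA i i' fun h' => h (Subtype.ext h')) (by rw [hΞ, hI]; exact hlt) (by
      intro f
      apply exists_bound
      rw [Cardinal.mk_prod, Cardinal.lift_id, Cardinal.lift_id, Cardinal.mk_option, hΞ, hI,
        Cardinal.add_one_eq (Cardinal.aleph0_le_aleph _)]
      refine lt_of_le_of_lt ?_ ((aleph_nat_lt_kap (n + 1)).trans (Order.lt_succ _))
      exact Cardinal.mul_le_of_le (Cardinal.aleph0_le_aleph _) le_rfl hlt.le)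
    (fun i => Q i) (fun i c hc => hQ i (hIS i.2).1 c hc) x hx
  have htop : ∀ ξ : Ξ, Ini (q ξ) (q ⊤) := by
    intro ξ
    rcases eq_or_lt_of_le (le_top : ξ ≤ ⊤) with h | h
    · rw [h]
      exact Ini.refl _
    · exact (hq' ξ ⊤ h).1
  have hinj : Function.Injective q := by
    intro ξ η h
    rcases lt_trichotomy ξ η with h' | h' | h'
    · exact absurd h (hq' ξ η h').2
    · exact h'
    · exact absurd h.symm (hq' η ξ h').2
  obtain ⟨c, ⟨ξ, rfl⟩, hc⟩ := hbad i (range q) (by rintro _ ⟨ξ, rfl⟩; exact (hq ξ).1)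
    (by rintro _ ⟨ξ, rfl⟩; exact (hq ξ).2)
    (by
      rintro _ ⟨ξ, rfl⟩ _ ⟨η, rfl⟩
      rcases lt_trichotomy ξ η with h' | h' | h'
      · exact Or.inl (hq' ξ η h').1
      · rw [h']
        exact Or.inl (Ini.refl _)
      · exact Or.inr (hq' η ξ h').1)
    (by rw [Cardinal.mk_range_eq q hinj, hΞ]) (q ⊤) (hq ⊤).2.1 (hq ⊤).2.2
  exact hc (htop ξ)

/-- If `Q` is good for all `n` then it has a chain of size at least `ℵ_ω`. -/
theorem exists_big_chain {A : Set W} {Q : Set (Set W)} (h : ∀ n, Good A Q n) :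
    ∃ C ⊆ Q, (∀ c ∈ C, Node A c) ∧ (∀ c ∈ C, ∀ d ∈ C, Ini c d ∨ Ini d c) ∧ kap ≤ #C := by
  have h0 : Node A (∅ : Set W) :=
    ⟨⟨Classical.arbitrary W, fun x hx => absurd hx (by simp)⟩, fun α _ hlim => by
      obtain ⟨β, hβ⟩ := hlim.1
      obtain ⟨γ, hγ, -⟩ := hlim.2 β hβ
      exact absurd hγ (by simp)⟩
  choose! Cf hCQ hCN hCc hCbig yf hyN hyI hyC using h
  let y : ℕ → Set W := fun n => Nat.rec ∅ (fun n x => yf n x) n
  have hy : ∀ n, Node A (y n) := by
    intro n
    induction n with
    | zero => exact h0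
    | succ n ih => exact hyN n (y n) ih
  have hyle : ∀ m n, m ≤ n → Ini (y m) (y n) := by
    intro m n hmn
    induction n, hmn using Nat.le_induction with
    | base => exact Ini.refl _
    | succ n _ ih => exact ih.trans (hyI n (y n) (hy n))
  refine ⟨⋃ n, Cf n (y n), ?_, ?_, ?_, ?_⟩
  · intro c hc
    obtain ⟨n, hn⟩ := mem_iUnion.1 hc
    exact hCQ n (y n) (hy n) hn
  · intro c hc
    obtain ⟨n, hn⟩ := mem_iUnion.1 hc
    exact (hCN n (y n) (hy n) c hn).1
  · have key : ∀ m n, m < n → ∀ c ∈ Cf m (y m), ∀ d ∈ Cf n (y n), Ini c d := by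
      intro m n hmn c hc d hd
      have h1 : Ini c (y (m + 1)) := hyC m (y m) (hy m) c hc
      exact (h1.trans (hyle _ _ hmn)).trans (hCN n (y n) (hy n) d hd).2
    intro c hc d hd
    obtain ⟨m, hm⟩ := mem_iUnion.1 hc
    obtain ⟨n, hn⟩ := mem_iUnion.1 hd
    rcases lt_trichotomy m n with h | h | h
    · exact Or.inl (key m n h c hm d hn)
    · subst h
      exact hCc m (y m) (hy m) c hm d hn
    · exact Or.inr (key n m h d hn c hm)
  · show Cardinal.aleph Ordinal.omega0 ≤ _
    rw [Cardinal.aleph_limit Ordinal.isSuccLimit_omega0]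
    apply ciSup_le'
    rintro ⟨a, ha⟩
    obtain ⟨n, rfl⟩ := Ordinal.lt_omega0.1 ha
    exact (hCbig n (y n) (hy n)).trans
      (Cardinal.mk_le_mk_of_subset (subset_iUnion (fun n => Cf n (y n)) n))

/-- The partially ordered set of nodes. -/
def Nodes (A : Set W) : Type := {c : Set W // Node A c}

instance (A : Set W) : PartialOrder (Nodes A) where
  le c d := Ini c.1 d.1
  le_refl c := Ini.refl _
  le_trans _ _ _ h1 h2 := Ini.trans h1 h2
  le_antisymm _ _ h1 h2 := Subtype.ext (Ini.antisymm h1 h2)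

theorem le_nodes {A : Set W} {c d : Nodes A} : c ≤ d ↔ Ini c.1 d.1 := Iff.rfl

/-- **Main theorem.** There is a partially ordered set `P` such that no cofinal subset of `P` has
property (R). -/
theorem result : ∃ (P : Type) (_ : PartialOrder P), ∀ Q : Set P,
    (∀ p : P, ∃ q ∈ Q, p ≤ q) → ¬ PropertyR Q := by
  classical
  by_contra hcon
  push Not at hcon
  obtain ⟨e, he⟩ := exists_e
  choose j hj using exists_small e
  -- a value of `j` which is taken more than `ℵ_ω` times
  obtain ⟨j0, hj0⟩ : ∃ j0, kap < #{i : W | j i = j0} := by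
    by_contra hno
    push Not at hno
    have h1 : (Set.univ : Set W) = ⋃ j0, {i : W | j i = j0} := by
      ext i
      simp
    have h2 : #W ≤ kap := by
      rw [← Cardinal.mk_univ, h1]
      refine (Cardinal.mk_iUnion_le _).trans ?_
      rw [mk_K]
      exact Cardinal.mul_le_of_le aleph0_le_kap le_rfl (ciSup_le' fun j0 => hno j0)
    rw [mk_W] at h2
    exact absurd h2 (not_le.2 (Order.lt_succ _))
  have hQ : ∀ i : W, ∃ Q : Set (Nodes (AA e j0 i)), (∀ p, ∃ q ∈ Q, p ≤ q) ∧ PropertyR Q :=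
    fun i => hcon _ _
  choose Q hQcof hQR using hQ
  let Qs : W → Set (Set W) := fun i => Subtype.val '' (Q i)
  have hQs : ∀ i ∈ {i : W | j i = j0}, ∀ c, Node (AA e j0 i) c →
      ∃ q ∈ Qs i, Node (AA e j0 i) q ∧ Ini c q := by
    intro i _ c hc
    obtain ⟨q, hq, hcq⟩ := hQcof i ⟨c, hc⟩
    exact ⟨q.1, ⟨q, hq, rfl⟩, q.2, hcq⟩
  -- an index which is good for all `n`
  obtain ⟨i, hi, hgood⟩ : ∃ i, j i = j0 ∧ ∀ n, Good (AA e j0 i) (Qs i) n := by
    by_contra hno
    push Not at hno
    have h1 : {i : W | j i = j0} ⊆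
        ⋃ n : ℕ, {i ∈ {i : W | j i = j0} | ¬ Good (AA e j0 i) (Qs i) n} := by
      intro i hi
      obtain ⟨n, hn⟩ := hno i hi
      exact mem_iUnion.2 ⟨n, hi, hn⟩
    have h2 : #{i : W | j i = j0} ≤ kap := by
      refine (Cardinal.mk_le_mk_of_subset h1).trans ?_
      refine (Cardinal.mk_iUnion_le _).trans ?_
      rw [Cardinal.mk_nat]
      exact Cardinal.mul_le_of_le aleph0_le_kap aleph0_le_kap
        (ciSup_le' fun n => mk_not_good (AA_disjoint he j0) Qs _ hQs n)
    exact absurd h2 (not_le.2 hj0)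
  obtain ⟨C, hCQ, hCN, hCc, hCbig⟩ := exists_big_chain hgood
  -- a maximal chain
  let C' : Set (Nodes (AA e j0 i)) := {c | c ∈ Q i ∧ c.1 ∈ C}
  have hC' : C' ⊆ Q i := fun c hc => hc.1
  have hC'c : IsChain (fun a b : Nodes (AA e j0 i) => a ≤ b) C' := by
    intro c hc d hd _
    exact hCc c.1 hc.2 d.1 hd.2
  obtain ⟨M, hCM, hM⟩ := zorn_subset_nonempty
    {D : Set (Nodes (AA e j0 i)) | D ⊆ Q i ∧ IsChain (fun a b => a ≤ b) D} (by
      intro F hF hFc hFne
      refine ⟨⋃₀ F, ⟨?_, ?_⟩, fun s hs => subset_sUnion_of_mem hs⟩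
      · exact sUnion_subset fun D hD => (hF hD).1
      · rintro c ⟨D, hD, hcD⟩ d ⟨E, hE, hdE⟩ hne
        rcases hFc.total hD hE with h | h
        · exact (hF hE).2 (h hcD) hdE hne
        · exact (hF hD).2 hcD (h hdE) hne) C' ⟨hC', hC'c⟩
  have hMmax : IsMaxChainOf (Q i) M := by
    refine ⟨hM.1.1, hM.1.2, ?_⟩
    intro D hD hDc hMD
    exact Subset.antisymm hMD (hM.2 ⟨hD, hDc⟩ hMD)
  -- the size of the maximal chain
  have hlow : kap ≤ #M := by
    refine hCbig.trans ?_
    refine le_trans ?_ (Cardinal.mk_le_mk_of_subset hCM)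
    have hf : ∀ c : C, ∃ c' : C', c'.1.1 = c.1 := by
      rintro ⟨c, hc⟩
      obtain ⟨q, hq, rfl⟩ := hCQ hc
      exact ⟨⟨q, hq, hc⟩, rfl⟩
    choose f hf using hf
    refine Cardinal.mk_le_of_injective (f := f) ?_
    intro c d hcd
    apply Subtype.ext
    rw [← hf c, ← hf d, hcd]
  have hupp : #M ≤ kap := by
    let v : Nodes (AA e j0 i) → Set W := fun c => c.1
    have hv : Function.Injective v := fun c d h => Subtype.ext h
    have h1 : #(v '' M) ≤ kap := by
      have h2 := hj i (v '' M)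
      rw [hi] at h2
      apply h2
      · rintro _ ⟨c, -, rfl⟩
        exact c.2
      · rintro _ ⟨c, hc, rfl⟩ _ ⟨d, hd, rfl⟩
        by_cases h : c = d
        · rw [h]
          exact Or.inl (Ini.refl _)
        · exact hM.1.2 hc hd h
    rwa [Cardinal.mk_image_eq hv] at h1
  have hMk : #M = kap := le_antisymm hupp hlow
  rcases hQR i M hMmax with h | h
  · have h1 : #M < ℵ₀ := Cardinal.lt_aleph0_iff_set_finite.2 h
    rw [hMk] at h1
    exact absurd h1 (not_lt.2 aleph0_le_kap)
  · rw [hMk] at h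
    exact Cardinal.isSingular_aleph_omega0.not_isRegular h

end Pool.Agent.Results.MP_43ca77_lc.SingularMaximalChains
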